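import Pool.Agent.H25.GW.Subq
import Pool.Agent.H26.GWBase.Alg
import Pool.Agent.H61.GWNil.Manifold
import Pool.Agent.H64.GW.Nil.Cubic
import Pool.Agent.H64.GW.Nil.GW
import Pool.Agent.H87.GWNil.Poincare
import Pool.Agent.H87.GWNil.Tame

/-!
# A symplectic manifold whose Gromov-Witten variation of Hodge structure is not algebro-geometric

Let `V = Γ \ ℝ⁶` be the nilmanifold which has a global frame of one-forms `e⁰, …, e⁵` with
`de⁰ = de¹ = 0` and `deᵏ⁺¹ = e⁰ ∧ eᵏ` for `k = 1, …, 4`, with the symplectic form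
`σ = e¹ ∧ e⁴ - e⁰ ∧ e⁵ - e² ∧ e³`. The variation of Hodge structure on the even cohomology of `V`
over `H² (V, ℂ)` given by the genus zero Gromov-Witten invariants of `V` is not locally
equivalent, at any point, to a subquotient of a polarized complex variation of Hodge structure over
an algebraic base (MP_a4dd1d_ag).
-/

open scoped Manifold ContDiff Topology ComplexConjugate
open MeasureTheory

namespace Pool.Agent.Results.MP_a4dd1d_ag.Nilmanifold

/-! ### The nilmanifold -/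

/-- The group law of the nilpotent group `G = ℝ⁶ = {(s, a) | s ∈ ℝ, a ∈ ℝ⁵}`: with the nilpotent
shift `N x = (0, x₁, x₂, x₃, x₄)` it is `(s, a) (t, x) = (s + t, a + exp (- s N) x)`. -/
noncomputable def mul (g h : Fin 6 → ℝ) : Fin 6 → ℝ :=
  ![g 0 + h 0, g 1 + h 1, g 2 + (h 2 - g 0 * h 1),
    g 3 + (h 3 - g 0 * h 2 + g 0 ^ 2 / 2 * h 1),
    g 4 + (h 4 - g 0 * h 3 + g 0 ^ 2 / 2 * h 2 - g 0 ^ 3 / 6 * h 1),
    g 5 + (h 5 - g 0 * h 4 + g 0 ^ 2 / 2 * h 3 - g 0 ^ 3 / 6 * h 2 + g 0 ^ 4 / 24 * h 1)]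

/-- The lattice `Γ` in `G`: the elements `(s, a)` with `s ∈ ℤ` for which the polynomial
`a₁ X⁴ / 4! + a₂ X³ / 3! + a₃ X² / 2! + a₄ X + a₅` takes integer values at all integers. -/
def Lat : Set (Fin 6 → ℝ) :=
  {g | (∃ n : ℤ, g 0 = n) ∧ ∀ m : ℤ, ∃ n : ℤ,
    g 1 * m ^ 4 / 24 + g 2 * m ^ 3 / 6 + g 3 * m ^ 2 / 2 + g 4 * m + g 5 = n}

/-- The nilmanifold `V = Γ \ G`, with the quotient topology. -/
def V : Type := Quot fun x y : Fin 6 → ℝ => ∃ γ ∈ Lat, mul γ x = y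

instance : TopologicalSpace V :=
  inferInstanceAs (TopologicalSpace (Quot fun x y : Fin 6 → ℝ => ∃ γ ∈ Lat, mul γ x = y))

/-- The projection from `G` to `V`. -/
def proj (x : Fin 6 → ℝ) : V := Quot.mk _ x

/-- The left invariant vector fields on `G`, dual to `e⁰, …, e⁵`: `X 0 = ∂ₜ` and
`X k = ∑_{j ≥ k} (-t) ^ (j - k) / (j - k)! ∂ⱼ` for `k = 1, …, 5`, where `t` is the first
coordinate. -/
noncomputable def X (k : ℕ) (x : Fin 6 → ℝ) : Fin 6 → ℝ := fun j =>
  if k = 0 then (if j = 0 then 1 else 0)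
  else if k ≤ (j : ℕ) then (-x 0) ^ ((j : ℕ) - k) / ((j : ℕ) - k).factorial else 0

/-! ### Differential forms and the second cohomology -/

/-- Complex differential forms of degree `k` on `G`. -/
def Form (k : ℕ) : Type := (Fin 6 → ℝ) → (Fin 6 → ℝ) [⋀^Fin k]→L[ℝ] ℂ

/-- `α` is (the inverse image on `G` of) a smooth differential form on `V`: it is smooth, and
invariant under left translation by the elements of `Γ`. -/
def IsForm {k : ℕ} (α : Form k) : Prop :=
  ContDiff ℝ ∞ α ∧ ∀ γ ∈ Lat, ∀ x v, α (mul γ x) (fun i => fderiv ℝ (mul γ) x (v i)) = α x v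

/-- Closed two-forms on `V`. -/
def IsClosedForm (α : Form 2) : Prop := IsForm α ∧ ∀ x v, extDeriv α x v = 0

/-- Exact two-forms on `V`. -/
def IsExactForm (α : Form 2) : Prop := ∃ β : Form 1, IsForm β ∧ ∀ x v, extDeriv β x v = α x v

/-- The integral of `α ∧ β ∧ γ` over `V`, of which the unit cube is a fundamental domain; the
integrand is `(α ∧ β ∧ γ) (∂₀, …, ∂₅)`. -/
noncomputable def integral (α β γ : Form 2) : ℂ :=
  ∫ x in Set.Icc (0 : Fin 6 → ℝ) 1, (1 / 8) * ∑ σ : Equiv.Perm (Fin 6),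
    (Equiv.Perm.sign σ : ℂ) * α x ![Pi.single (σ 0) 1, Pi.single (σ 1) 1] *
    β x ![Pi.single (σ 2) 1, Pi.single (σ 3) 1] * γ x ![Pi.single (σ 4) 1, Pi.single (σ 5) 1]

/-- The vector space `T` is the second de Rham cohomology `H² (V, ℂ)`: the map `q`, restricted to
the closed two-forms, is linear and surjective and its kernel consists of the exact forms. -/
structure IsH2 {T : Type} [AddCommGroup T] [Module ℂ T] (q : Form 2 → T) : Prop where
  linear : ∀ (a b : ℂ) (α β γ : Form 2), IsClosedForm α → IsClosedForm β →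
    (∀ x v, γ x v = a * α x v + b * β x v) → q γ = a • q α + b • q β
  surjective : ∀ t, ∃ α, IsClosedForm α ∧ q α = t
  ker : ∀ α, IsClosedForm α → (q α = 0 ↔ IsExactForm α)

/-- `C` is the cubic form `C (x, y, z) = ∫ x y z` on `T = H² (V, ℂ)`. -/
def IsCubic {T : Type} [AddCommGroup T] [Module ℂ T] (q : Form 2 → T)
    (C : T →ₗ[ℂ] T →ₗ[ℂ] Module.Dual ℂ T) : Prop :=
  ∀ α β γ : Form 2, IsClosedForm α → IsClosedForm β → IsClosedForm γ →
    C (q α) (q β) (q γ) = integral α β γ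

/-! ### Symplectic forms and pseudo-holomorphic spheres -/

/-- `σ` is a symplectic form on `V`: real, closed and nondegenerate. -/
structure IsSymplectic (σ : Form 2) : Prop where
  closed : IsClosedForm σ
  real : ∀ x v, (σ x v).im = 0
  nondegenerate : ∀ x v, (∀ w, σ x ![v, w] = 0) → v = 0

/-- `J` is a smooth almost complex structure on `V` (`J x` is its value on tangent vectors at the
point `x` of the covering `G` of `V`) which is tamed by the symplectic form `σ`. -/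
structure IsTame (σ : Form 2) (J : (Fin 6 → ℝ) → (Fin 6 → ℝ) → (Fin 6 → ℝ)) : Prop where
  linear : ∀ x, IsLinearMap ℝ (J x)
  smooth : ∀ v, ContDiff ℝ ∞ fun x => J x v
  sq : ∀ x v, J x (J x v) = -v
  invariant : ∀ γ ∈ Lat, ∀ x v,
    fderiv ℝ (mul γ) x (J x v) = J (mul γ x) (fderiv ℝ (mul γ) x v)
  tame : ∀ x v, v ≠ 0 → 0 < (σ x ![v, J x v]).re

/-- The maps `u` and `v` from `ℂ` to the universal covering `G` of `V` are lifts of the two
halves, `z ↦ f z` and `z ↦ f (1 / z)`, of a `J`-holomorphic map `f` from the Riemann sphere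
to `V`. -/
structure IsSphere (J : (Fin 6 → ℝ) → (Fin 6 → ℝ) → (Fin 6 → ℝ)) (u v : ℂ → Fin 6 → ℝ) :
    Prop where
  smooth : ContDiff ℝ ∞ u
  smooth' : ContDiff ℝ ∞ v
  holomorphic : ∀ z, fderiv ℝ u z Complex.I = J (u z) (fderiv ℝ u z 1)
  holomorphic' : ∀ z, fderiv ℝ v z Complex.I = J (v z) (fderiv ℝ v z 1)
  glue : ∀ z, z ≠ 0 → proj (v z) = proj (u z⁻¹)

/-! ### Even cohomology and Gromov-Witten invariants -/

section Even

variable {T : Type} [AddCommGroup T] [Module ℂ T]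

/-- The cup product on the even cohomology `H⁰ ⊕ H² ⊕ H⁴ ⊕ H⁶` of `V`, where `H⁰ = H⁶ = ℂ`,
`H² = T` and, by Poincaré duality, `H⁴` is the dual of `T`. -/
def cup (C : T →ₗ[ℂ] T →ₗ[ℂ] Module.Dual ℂ T) (a b : ℂ × T × Module.Dual ℂ T × ℂ) :
    ℂ × T × Module.Dual ℂ T × ℂ :=
  (a.1 * b.1, a.1 • b.2.1 + b.1 • a.2.1, a.1 • b.2.2.1 + b.1 • a.2.2.1 + C a.2.1 b.2.1,
    a.1 * b.2.2.2 + b.1 * a.2.2.2 + a.2.2.1 b.2.1 + b.2.2.1 a.2.1)

/-- The even class `a` is a sum of classes of degree at most `2 k`. -/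
def DegLE (k : ℤ) (a : ℂ × T × Module.Dual ℂ T × ℂ) : Prop :=
  (k < 0 → a.1 = 0) ∧ (k < 1 → a.2.1 = 0) ∧ (k < 2 → a.2.2.1 = 0) ∧ (k < 3 → a.2.2.2 = 0)

/-- `I n β γ = ⟨I_{0,n;β}, 1 ⊗ γ ^ ⊗ n⟩` (`n ≥ 3`, `β` in `H₂ = H₂ (V, ℤ)`, `γ` an even class) are
the genus zero Gromov-Witten numbers of the symplectic manifold `(V, σ)`. Only two of their
properties are used: a number in a class `β ≠ 0` vanishes unless there are, for every almost
complex structure tamed by `σ`, nonconstant pseudo-holomorphic spheres in `V`; and the numbers for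
`β = 0` are `∫ γ³` for `n = 3` and zero for `n > 3`. -/
structure IsGW (σ : Form 2) (C : T →ₗ[ℂ] T →ₗ[ℂ] Module.Dual ℂ T) {H₂ : Type} [AddCommGroup H₂]
    (I : ℕ → H₂ → ℂ × T × Module.Dual ℂ T × ℂ → ℂ) : Prop where
  effective : ∀ n, 3 ≤ n → ∀ β, β ≠ 0 → ∀ γ, I n β γ ≠ 0 → ∀ J, IsTame σ J →
    ∃ u v, IsSphere J u v ∧ ∃ z, u z ≠ u 0
  zero_three : ∀ γ, I 3 0 γ = (cup C (cup C γ γ) γ).2.2.2
  zero_of_three_lt : ∀ n, 3 < n → ∀ γ, I n 0 γ = 0

/-- The term of index `(β, n)` of the prepotential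
`Φ (γ) = ∑_β ∑_{n ≥ 3} exp (- ⟨σ, β⟩) / n! ⟨I_{0,n;β}, 1 ⊗ γ ^ ⊗ n⟩`, where `area β = ⟨σ, β⟩`. -/
noncomputable def term {H₂ : Type} [AddCommGroup H₂] (area : H₂ →+ ℝ)
    (I : ℕ → H₂ → ℂ × T × Module.Dual ℂ T × ℂ → ℂ) (γ : ℂ × T × Module.Dual ℂ T × ℂ) (β : H₂)
    (n : ℕ) : ℂ :=
  if 3 ≤ n then (Real.exp (-area β) : ℂ) / n.factorial * I n β γ else 0

/-- `A` is the connection form `A ^ k _ {i j} = ∑ g ^ {k k'} ∂ᵢ ∂ⱼ ∂ₖ' Φ` of the potential `Φ`,
where `g (a, b) = ∫ a b` is the Poincaré pairing: `A γ x y` is its value at the point `γ`, in the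
direction `x`, on the vector `y`. -/
def IsConnectionForm (C : T →ₗ[ℂ] T →ₗ[ℂ] Module.Dual ℂ T)
    (Φ : ℂ × T × Module.Dual ℂ T × ℂ → ℂ)
    (A : ℂ × T × Module.Dual ℂ T × ℂ → ℂ × T × Module.Dual ℂ T × ℂ →
      ℂ × T × Module.Dual ℂ T × ℂ → ℂ × T × Module.Dual ℂ T × ℂ) : Prop :=
  ∀ γ x y z, (cup C (A γ x y) z).2.2.2 = deriv (fun r : ℂ => deriv (fun s : ℂ =>
    deriv (fun t : ℂ => Φ (γ + r • x + s • y + t • z)) 0) 0) 0

end Even

/-! ### Variations of Hodge structure -/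

/-- The base `(S, Γ)` is algebraic: `S` is a connected complex manifold of dimension `n` with an
action of the group `Γ`, and a dense connected open `Γ`-invariant subset `S₀` of `S` is, via a
`Γ`-invariant local biholomorphism `p`, a covering space of the complement of a hypersurface
`P = 0` in `ℂⁿ`, with a bounded number of orbits of `Γ` on the fibres. Example: `S` is the
universal covering of a smooth connected quasi-projective variety `B`, and `Γ = π₁ (B)`. -/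
structure IsAlgebraicBase (n : ℕ) (S : Type) [TopologicalSpace S] [ChartedSpace (Fin n → ℂ) S]
    (Γ : Type) [Group Γ] [MulAction Γ S] : Prop where
  manifold : IsManifold 𝓘(ℂ, Fin n → ℂ) 1 S
  connected : PreconnectedSpace S
  exists_covering : ∃ (P : MvPolynomial (Fin n) ℂ) (S₀ : TopologicalSpace.Opens S)
    (p : S → (Fin n → ℂ)), Dense (S₀ : Set S) ∧ IsPreconnected (S₀ : Set S) ∧
    (∀ s ∈ S₀, MvPolynomial.eval (p s) P ≠ 0) ∧
    IsCoveringMapOn (fun s : S₀ => p s) {x | MvPolynomial.eval x P ≠ 0} ∧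
    IsLocalDiffeomorphOn 𝓘(ℂ, Fin n → ℂ) 𝓘(ℂ, Fin n → ℂ) 1 p S₀ ∧
    (∀ γ : Γ, Continuous fun s : S => γ • s) ∧
    (∀ (γ : Γ), ∀ s ∈ S₀, γ • s ∈ S₀ ∧ p (γ • s) = p s) ∧
    ∃ m : ℕ, ∀ x, ∃ R : Finset S, R.card ≤ m ∧
      ∀ s ∈ S₀, p s = x → ∃ γ : Γ, ∃ r ∈ R, s = γ • r

section Variations

variable {𝕄 : Type} [NormedAddCommGroup 𝕄] [NormedSpace ℂ 𝕄]
  {S : Type} [TopologicalSpace S] [ChartedSpace 𝕄 S] {Γ : Type} [Group Γ] [MulAction Γ S]
  {E : Type} [NormedAddCommGroup E] [NormedSpace ℂ E]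

/-- A polarized complex variation of Hodge structure over the base `(S, Γ)`: the flat bundle is
`S × E` with the action of `Γ` through `ρ`, the Hodge filtration is `F`, and `h` is the
polarization. -/
structure IsPolarizedVariation (𝕄 : Type) [NormedAddCommGroup 𝕄] [NormedSpace ℂ 𝕄]
    {S : Type} [TopologicalSpace S] [ChartedSpace 𝕄 S] {Γ : Type} [Group Γ] [MulAction Γ S]
    {E : Type} [NormedAddCommGroup E] [NormedSpace ℂ E]
    (F : ℤ → S → Submodule ℂ E) (ρ : Γ →* (E ≃ₗ[ℂ] E)) (h : E →L⋆[ℂ] E →L[ℂ] ℂ) : Prop where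
  antitone : ∀ s, Antitone fun p => F p s
  exists_eq_top : ∀ s, ∃ p, F p s = ⊤
  exists_eq_bot : ∀ s, ∃ p, F p s = ⊥
  /-- the filtration varies holomorphically -/
  holomorphic : ∀ s₀ : S, ∃ g : S → (E →L[ℂ] E), g s₀ = ContinuousLinearMap.id ℂ E ∧
    ∀ᶠ s in 𝓝 s₀, MDifferentiableAt 𝓘(ℂ, 𝕄) 𝓘(ℂ, E →L[ℂ] E) g s ∧
      ∀ p, F p s = (F p s₀).map (g s : E →ₗ[ℂ] E)
  /-- Griffiths transversality, along holomorphic curves `f` -/
  griffiths : ∀ (p : ℤ) (f : ℂ → S) (e : ℂ → E) (z₀ : ℂ),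
    (∀ᶠ z in 𝓝 z₀, MDifferentiableAt 𝓘(ℂ) 𝓘(ℂ, 𝕄) f z ∧ DifferentiableAt ℂ e z ∧
      e z ∈ F p (f z)) → deriv e z₀ ∈ F (p - 1) (f z₀)
  equivariant : ∀ (γ : Γ) (p : ℤ) (s : S), F p (γ • s) = (F p s).map (ρ γ : E →ₗ[ℂ] E)
  hermitian : ∀ u v, h u v = conj (h v u)
  invariant : ∀ (γ : Γ) (u v : E), h (ρ γ u) (ρ γ v) = h u v
  /-- the Hodge-Riemann relations: `(-1) ^ p h` is positive definite on the part of `F p`
  orthogonal to `F (p + 1)`. -/
  hodge_riemann : ∀ (s : S) (p : ℤ), ∀ u ∈ F p s, (∀ v ∈ F (p + 1) s, h u v = 0) → u ≠ 0 →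
    0 < (-1 : ℝ) ^ p * (h u u).re

/-- The filtration `F'` of the flat bundle `S × E'` is a subquotient of the filtration `F` of the
flat bundle `S × E`: `E'` is the quotient of a subspace `B` of `E` by a subspace of `B` (the kernel
of `π`), both stable under `Γ`, with the induced filtration. The two subspaces need only be stable
under `Γ` (flat subbundles over the base); they need not be subvariations of Hodge structure. -/
def IsSubquotient {E' : Type} [AddCommGroup E'] [Module ℂ E'] (F : ℤ → S → Submodule ℂ E)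
    (ρ : Γ →* (E ≃ₗ[ℂ] E)) (F' : ℤ → S → Submodule ℂ E') : Prop :=
  ∃ (B : Submodule ℂ E) (π : B →ₗ[ℂ] E'), Function.Surjective π ∧
    (∀ (γ : Γ) (b : B), ∃ b' : B, (b' : E) = ρ γ b ∧ (π b = 0 → π b' = 0)) ∧
    ∀ p s, F' p s = ((F p s).comap B.subtype).map π

/-- The Gromov-Witten variation over `H² (V, ℂ) = T` (the trivial bundle whose fibre is the even
cohomology, with the connection `∇ = d + A` and the filtration by degree), near the point `x₀`, is
equivalent to the flat bundle `S × E` with the filtration `F` over the complex manifold `S`, near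
the point `s₀`: there are a biholomorphic map `j` of a neighbourhood `O` of `x₀` onto an open set
of `S` with `j x₀ = s₀`, and an isomorphism `Ψ` of vector bundles over `j` which is compatible with
the connections and which identifies the steps of the two filtrations. -/
def LocallyEquivalent {T : Type} [NormedAddCommGroup T] [NormedSpace ℂ T]
    (A : ℂ × T × Module.Dual ℂ T × ℂ → ℂ × T × Module.Dual ℂ T × ℂ →
      ℂ × T × Module.Dual ℂ T × ℂ → ℂ × T × Module.Dual ℂ T × ℂ) (x₀ : T)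
    (𝕄 : Type) [NormedAddCommGroup 𝕄] [NormedSpace ℂ 𝕄]
    {S : Type} [TopologicalSpace S] [ChartedSpace 𝕄 S]
    {E : Type} [NormedAddCommGroup E] [NormedSpace ℂ E]
    (F : ℤ → S → Submodule ℂ E) (s₀ : S) : Prop :=
  ∃ (O : Set T) (j : T → S) (j' : S → T) (Ψ : T → ((ℂ × T × Module.Dual ℂ T × ℂ) ≃ₗ[ℂ] E)),
    IsOpen O ∧ x₀ ∈ O ∧ j x₀ = s₀ ∧ IsOpen (j '' O) ∧
    (∀ x ∈ O, MDifferentiableAt 𝓘(ℂ, T) 𝓘(ℂ, 𝕄) j x) ∧
    (∀ x ∈ O, j' (j x) = x ∧ MDifferentiableAt 𝓘(ℂ, 𝕄) 𝓘(ℂ, T) j' (j x)) ∧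
    (∀ x ∈ O, ∀ a, DifferentiableAt ℂ (fun x => Ψ x a) x ∧
      ∀ y, fderiv ℂ (fun x => Ψ x a) x y = Ψ x (A (0, x, 0, 0) (0, y, 0, 0) a)) ∧
    (∀ k : ℤ, ∃ p : ℤ, ∀ x ∈ O, ∀ a, Ψ x a ∈ F p (j x) ↔ DegLE k a) ∧
    (∀ p : ℤ, ∃ k : ℤ, ∀ x ∈ O, ∀ a, Ψ x a ∈ F p (j x) ↔ DegLE k a)

end Variations

/-! ### Comparison with the working definitions -/

section Transfer

open Pool.Agent.H64.GW

theorem isForm_iff {k : ℕ} (α : Form k) : IsForm α ↔ α ∈ Nil.Ω k := by
  constructor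
  · rintro ⟨h1, h2⟩
    refine ⟨h1, fun γ hγ x => ?_⟩
    ext v
    exact h2 γ hγ x v
  · rintro ⟨h1, h2⟩
    refine ⟨h1, fun γ hγ x v => ?_⟩
    exact congrArg (fun f : (Fin 6 → ℝ) [⋀^Fin k]→L[ℝ] ℂ => f v) (h2 γ hγ x)

theorem isClosedForm_iff (α : Form 2) : IsClosedForm α ↔ α ∈ Nil.Z2 := by
  constructor
  · rintro ⟨h1, h2⟩
    refine ⟨(isForm_iff α).1 h1, ?_⟩
    funext x
    ext v
    exact h2 x v
  · rintro ⟨h1, h2⟩
    refine ⟨(isForm_iff α).2 h1, fun x v => ?_⟩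
    have := congrFun h2 x
    rw [this]
    rfl

theorem isExactForm_iff (α : Form 2) : IsExactForm α ↔ Nil.IsExact α := by
  constructor
  · rintro ⟨β, h1, h2⟩
    refine ⟨β, (isForm_iff β).1 h1, ?_⟩
    funext x
    ext v
    exact h2 x v
  · rintro ⟨β, h1, h2⟩
    refine ⟨β, (isForm_iff β).2 h1, fun x v => ?_⟩
    exact congrArg (fun f : (Fin 6 → ℝ) [⋀^Fin 2]→L[ℝ] ℂ => f v) (congrFun h2 x)

theorem integral_eq (α β γ : Form 2) : integral α β γ = Nil.integral α β γ := rfl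

variable {T : Type} [AddCommGroup T] [Module ℂ T]

/-- the class map as a linear map -/
noncomputable def clsMap {q : Form 2 → T} (hq : IsH2 q) : Nil.Z2 →ₗ[ℂ] T where
  toFun α := q α.1
  map_add' α β := by
    have h := hq.linear 1 1 α.1 β.1 (α + β).1 ((isClosedForm_iff _).2 α.2)
      ((isClosedForm_iff _).2 β.2) (fun x v => by
        rw [one_mul, one_mul]
        rfl)
    rwa [one_smul, one_smul] at h
  map_smul' c α := by
    have h := hq.linear c 0 α.1 α.1 (c • α).1 ((isClosedForm_iff _).2 α.2)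
      ((isClosedForm_iff _).2 α.2) (fun x v => by
        rw [zero_mul, add_zero]
        rfl)
    rwa [zero_smul, add_zero] at h

theorem isH2_clsMap {q : Form 2 → T} (hq : IsH2 q) : Nil.IsH2 (clsMap hq) := by
  constructor
  · intro t
    obtain ⟨α, h1, h2⟩ := hq.surjective t
    exact ⟨⟨α, (isClosedForm_iff α).1 h1⟩, h2⟩
  · intro α
    rw [← isExactForm_iff]
    exact hq.ker α.1 ((isClosedForm_iff _).2 α.2)

theorem isCubic_iff {q : Form 2 → T} (hq : IsH2 q) (C : T →ₗ[ℂ] T →ₗ[ℂ] Module.Dual ℂ T) :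
    IsCubic q C ↔ ∀ α β γ : Nil.Z2, C (clsMap hq α) (clsMap hq β) (clsMap hq γ) =
      Nil.integral α.1 β.1 γ.1 := by
  constructor
  · intro h α β γ
    exact h α.1 β.1 γ.1 ((isClosedForm_iff _).2 α.2) ((isClosedForm_iff _).2 β.2)
      ((isClosedForm_iff _).2 γ.2)
  · intro h α β γ hα hβ hγ
    exact h ⟨α, (isClosedForm_iff _).1 hα⟩ ⟨β, (isClosedForm_iff _).1 hβ⟩
      ⟨γ, (isClosedForm_iff _).1 hγ⟩

open Classical in
/-- a class map with values in `ℂ³` -/
noncomputable def clsFun (α : Form 2) : Fin 3 → ℂ :=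
  if h : α ∈ Nil.Z2 then Nil.cls ⟨α, h⟩ else 0

theorem clsFun_of_mem {α : Form 2} (h : α ∈ Nil.Z2) : clsFun α = Nil.cls ⟨α, h⟩ := dif_pos h

theorem isH2_clsFun : IsH2 clsFun := by
  constructor
  · intro a b (α : Nil.Form 2) (β : Nil.Form 2) (γ : Nil.Form 2) hα hβ hγ
    have h1 := (isClosedForm_iff α).1 hα
    have h2 := (isClosedForm_iff β).1 hβ
    have h3 : γ = a • α + b • β := by
      funext x
      ext v
      exact hγ x v
    have h4 : γ ∈ Nil.Z2 := by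
      rw [h3]
      exact Submodule.add_mem _ (Submodule.smul_mem _ a h1) (Submodule.smul_mem _ b h2)
    rw [clsFun_of_mem h1, clsFun_of_mem h2, clsFun_of_mem h4]
    have h5 : (⟨γ, h4⟩ : Nil.Z2) = a • ⟨α, h1⟩ + b • ⟨β, h2⟩ := Subtype.ext h3
    have h6 := map_add Nil.cls (a • (⟨α, h1⟩ : Nil.Z2)) (b • ⟨β, h2⟩)
    have h7 := map_smul Nil.cls a (⟨α, h1⟩ : Nil.Z2)
    have h8 := map_smul Nil.cls b (⟨β, h2⟩ : Nil.Z2)
    rw [h5, h6, h7, h8]
  · intro t
    obtain ⟨α, hα⟩ := Nil.isH2_cls.surjective t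
    exact ⟨α.1, (isClosedForm_iff _).2 α.2, (clsFun_of_mem α.2).trans hα⟩
  · intro α hα
    have h1 := (isClosedForm_iff α).1 hα
    rw [clsFun_of_mem h1, isExactForm_iff]
    exact Nil.isH2_cls.ker ⟨α, h1⟩

/-- the class in degree zero and the J-holomorphic spheres -/
theorem isTame_iff (σ : Form 2) (J : (Fin 6 → ℝ) → (Fin 6 → ℝ) → (Fin 6 → ℝ)) :
    IsTame σ J ↔ ∃ J' : (Fin 6 → ℝ) → ((Fin 6 → ℝ) →L[ℝ] (Fin 6 → ℝ)), Nil.IsTame σ J' ∧
      ∀ x v, J' x v = J x v := by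
  constructor
  · intro h
    refine ⟨fun x => LinearMap.toContinuousLinearMap (IsLinearMap.mk' (J x) (h.linear x)), ?_,
      fun x v => rfl⟩
    refine ⟨?_, fun x v => h.sq x v, fun γ hγ x v => h.invariant γ hγ x v,
      fun x v hv => h.tame x v hv⟩
    rw [contDiff_clm_apply_iff]
    exact h.smooth
  · rintro ⟨J', h, hJ⟩
    refine ⟨fun x => ?_, fun v => ?_, fun x v => ?_, fun γ hγ x v => ?_, fun x v hv => ?_⟩
    · constructor
      · intro a b
        rw [← hJ, ← hJ, ← hJ, map_add]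
      · intro c a
        rw [← hJ, ← hJ, map_smul]
    · have := (contDiff_clm_apply_iff.1 h.smooth) v
      simpa only [hJ] using this
    · rw [← hJ, ← hJ]
      exact h.sq x v
    · rw [← hJ, ← hJ]
      exact h.invariant γ hγ x v
    · rw [← hJ]
      exact h.tame x v hv

theorem proj_eq_iff (x y : Fin 6 → ℝ) :
    proj x = proj y ↔ Pool.Agent.H61.GWNil.proj x = Pool.Agent.H61.GWNil.proj y := by
  have h : Equivalence fun x y : Fin 6 → ℝ => ∃ γ ∈ Lat, mul γ x = y := by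
    refine ⟨fun x => ⟨0, Pool.Agent.H61.GWNil.zero_mem_Lat, Pool.Agent.H61.GWNil.zero_mul' x⟩,
      ?_, ?_⟩
    · rintro x y ⟨γ, hγ, rfl⟩
      refine ⟨Pool.Agent.H61.GWNil.inv γ, Pool.Agent.H61.GWNil.inv_mem_Lat hγ, ?_⟩
      have h1 := Pool.Agent.H61.GWNil.mul_assoc' (Pool.Agent.H61.GWNil.inv γ) γ x
      rw [Pool.Agent.H61.GWNil.inv_mul', Pool.Agent.H61.GWNil.zero_mul'] at h1
      exact h1.symm
    · rintro x y z ⟨γ, hγ, rfl⟩ ⟨δ, hδ, rfl⟩
      exact ⟨Nil.mul δ γ, Pool.Agent.H61.GWNil.mul_mem_Lat hδ hγ,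
        Pool.Agent.H61.GWNil.mul_assoc' δ γ x⟩
  have e : proj x = proj y ↔ Relation.EqvGen (fun x y : Fin 6 → ℝ => ∃ γ ∈ Lat, mul γ x = y) x y :=
    Quot.eq
  rw [e, h.eqvGen_iff, Pool.Agent.H61.GWNil.proj_eq_iff]
  constructor
  · intro h'
    exact h.symm h'
  · intro h'
    exact h.symm h'

theorem isSphere_iff {J : (Fin 6 → ℝ) → (Fin 6 → ℝ) → (Fin 6 → ℝ)}
    {J' : (Fin 6 → ℝ) → ((Fin 6 → ℝ) →L[ℝ] (Fin 6 → ℝ))} (hJ : ∀ x v, J' x v = J x v)
    (u v : ℂ → Fin 6 → ℝ) : IsSphere J u v ↔ Nil.IsSphere J' u v := by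
  constructor
  · intro h
    exact ⟨h.smooth, h.smooth', fun z => (h.holomorphic z).trans (hJ _ _).symm,
      fun z => (h.holomorphic' z).trans (hJ _ _).symm,
      fun z hz => (proj_eq_iff _ _).1 (h.glue z hz)⟩
  · intro h
    exact ⟨h.smooth, h.smooth', fun z => (h.holomorphic z).trans (hJ _ _),
      fun z => (h.holomorphic' z).trans (hJ _ _),
      fun z hz => (proj_eq_iff _ _).2 (h.glue z hz)⟩

theorem sphere_constant {σ : Form 2} (hσ : IsClosedForm σ)
    {J : (Fin 6 → ℝ) → (Fin 6 → ℝ) → (Fin 6 → ℝ)} (hJ : IsTame σ J) {u v : ℂ → Fin 6 → ℝ}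
    (hs : IsSphere J u v) (z : ℂ) : u z = u 0 := by
  obtain ⟨J', h1, h2⟩ := (isTame_iff σ J).1 hJ
  exact Pool.Agent.H87.GWNil.spheres ((isClosedForm_iff σ).1 hσ) h1 ((isSphere_iff h2 u v).1 hs) z

/-- the two models of the nilmanifold -/
noncomputable def homeo : Pool.Agent.H61.GWNil.V ≃ₜ V where
  toFun := Quotient.lift proj fun a b h => (proj_eq_iff a b).2 (Quotient.sound h)
  invFun := Quot.lift Pool.Agent.H61.GWNil.proj fun a b h =>
    (proj_eq_iff a b).1 (Quot.sound h)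
  left_inv := by
    rintro ⟨x⟩
    rfl
  right_inv := by
    rintro ⟨x⟩
    rfl
  continuous_toFun := by
    apply Continuous.quotient_lift
    exact continuous_quot_mk
  continuous_invFun := by
    apply continuous_quot_lift
    exact Pool.Agent.H61.GWNil.continuous_proj

theorem compact_V : CompactSpace V := homeo.compactSpace

theorem t2_V : T2Space V := homeo.t2Space

theorem connected_V : ConnectedSpace V :=
  homeo.surjective.connectedSpace homeo.continuous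

theorem covering_V : IsCoveringMap proj :=
  Pool.Agent.H61.GWNil.isCoveringMap.homeomorph_comp homeo

/-- the Gromov-Witten numbers as in the working definitions -/
def numbers {σ : Form 2} {C : T →ₗ[ℂ] T →ₗ[ℂ] Module.Dual ℂ T} {H₂ : Type} [AddCommGroup H₂]
    {I : ℕ → H₂ → ℂ × T × Module.Dual ℂ T × ℂ → ℂ} (hσ : IsClosedForm σ)
    {J : (Fin 6 → ℝ) → (Fin 6 → ℝ) → (Fin 6 → ℝ)} (hJ : IsTame σ J) (h : IsGW σ C I) :
    GWNumbers C H₂ where
  I := I
  nonzero n hn β hβ γ := by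
    by_contra hne
    obtain ⟨u, v, h1, z, hz⟩ := h.effective n hn β hβ γ hne J hJ
    exact hz (sphere_constant hσ hJ h1 z)
  zero_three := h.zero_three
  zero_of_three_lt := h.zero_of_three_lt

open Classical in
theorem exists_gw (σ : Form 2) (C : T →ₗ[ℂ] T →ₗ[ℂ] Module.Dual ℂ T) (H₂ : Type)
    [AddCommGroup H₂] : ∃ I : ℕ → H₂ → ℂ × T × Module.Dual ℂ T × ℂ → ℂ, IsGW σ C I := by
  refine ⟨fun n β γ => if n = 3 ∧ β = 0 then (cup C (cup C γ γ) γ).2.2.2 else 0, ?_, ?_, ?_⟩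
  · intro n _ β hβ γ h
    exact absurd (if_neg fun h' => hβ h'.2) h
  · intro γ
    exact if_pos ⟨rfl, rfl⟩
  · intro n hn γ
    exact if_neg fun h' => by omega

end Transfer

section Transfer2

open Pool.Agent.H64.GW

variable {𝕄 : Type} [NormedAddCommGroup 𝕄] [NormedSpace ℂ 𝕄]
  {S : Type} [TopologicalSpace S] [ChartedSpace 𝕄 S] {Γ : Type} [Group Γ] [MulAction Γ S]
  {E : Type} [NormedAddCommGroup E] [NormedSpace ℂ E]

/-- the polarized variation as in the working definitions -/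
def polarized {F : ℤ → S → Submodule ℂ E} {ρ : Γ →* (E ≃ₗ[ℂ] E)} {h : E →L⋆[ℂ] E →L[ℂ] ℂ}
    (H : IsPolarizedVariation 𝕄 F ρ h) : PolarizedVariation 𝕄 S Γ E where
  F := F
  antitone := H.antitone
  exists_eq_top := H.exists_eq_top
  exists_eq_bot := H.exists_eq_bot
  holomorphic := H.holomorphic
  griffiths := H.griffiths
  ρ := ρ
  equivariant := H.equivariant
  h := h
  hermitian := H.hermitian
  invariant := H.invariant
  hodge_riemann := H.hodge_riemann

theorem exists_subquotient {F : ℤ → S → Submodule ℂ E} {ρ : Γ →* (E ≃ₗ[ℂ] E)}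
    {h : E →L⋆[ℂ] E →L[ℂ] ℂ} (H : IsPolarizedVariation 𝕄 F ρ h)
    {E' : Type} [AddCommGroup E'] [Module ℂ E'] {F' : ℤ → S → Submodule ℂ E'}
    (hF : IsSubquotient F ρ F') : ∃ Y : Subquotient (polarized H) E', Y.F = F' := by
  obtain ⟨B, π, h1, h2, h3⟩ := hF
  have hst : ∀ γ : Γ, ∀ e ∈ B, (polarized H).ρ γ e ∈ B := by
    intro γ e he
    obtain ⟨b', h4, -⟩ := h2 γ ⟨e, he⟩
    have h5 : (polarized H).ρ γ e = b' := h4.symm
    rw [h5]
    exact b'.2
  refine ⟨⟨B, hst, π, h1, fun γ e he => ?_⟩, ?_⟩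
  · obtain ⟨b', h4, h5⟩ := h2 γ e
    have h6 : (⟨(polarized H).ρ γ e, hst γ e e.2⟩ : B) = b' := Subtype.ext h4.symm
    rw [h6]
    exact h5 he
  · funext p s
    exact (h3 p s).symm

theorem isLiouville_of {n : ℕ} {S : Type} [TopologicalSpace S] [ChartedSpace (Fin n → ℂ) S]
    {Γ : Type} [Group Γ] [MulAction Γ S] (h : IsAlgebraicBase n S Γ) :
    IsLiouville (Fin n → ℂ) S Γ := by
  obtain ⟨P, S₀, p, h1, h2, h3, h4, h5, h6, h7, h8⟩ := h.exists_covering
  exact (⟨h1, h2, h3, h4, h5, h6, fun γ s hs => (h7 γ s hs).1, fun γ s hs => (h7 γ s hs).2, h8⟩ :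
    Pool.Agent.H26.GWBase.IsAlgebraicBase n S Γ P S₀ p).isLiouville

theorem mem_degFiltration {T : Type} [AddCommGroup T] [Module ℂ T] (k : ℤ)
    (a : ℂ × T × Module.Dual ℂ T × ℂ) : DegLE k a ↔ a ∈ degFiltration T k := Iff.rfl

theorem locallyEquivalent_of {T : Type} [NormedAddCommGroup T] [NormedSpace ℂ T]
    {C : T →ₗ[ℂ] T →ₗ[ℂ] Module.Dual ℂ T}
    {A : ℂ × T × Module.Dual ℂ T × ℂ → ℂ × T × Module.Dual ℂ T × ℂ →
      ℂ × T × Module.Dual ℂ T × ℂ → ℂ × T × Module.Dual ℂ T × ℂ}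
    (hA : ∀ γ y a, A γ (deg2 y) a = Pool.Agent.H64.GW.cup C y a)
    {x₀ : T} {F : ℤ → S → Submodule ℂ E} {s₀ : S} (h : LocallyEquivalent A x₀ 𝕄 F s₀) :
    Pool.Agent.H64.GW.LocallyEquivalent (𝕄 := 𝕄) C x₀ F s₀ := by
  obtain ⟨O, j, j', Ψ, h1, h2, h3, h4, h5, h6, h7, h8, h9⟩ := h
  have key : ∀ (G : Submodule ℂ E) (k : ℤ) (e : HEven T ≃ₗ[ℂ] E),
      (∀ a, e a ∈ G ↔ DegLE k a) → G = (degFiltration T k).map (e : HEven T →ₗ[ℂ] E) := by
    intro G k e he
    ext y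
    constructor
    · intro hy
      refine ⟨e.symm y, ?_, e.apply_symm_apply y⟩
      rw [SetLike.mem_coe, ← mem_degFiltration, ← he, e.apply_symm_apply]
      exact hy
    · rintro ⟨a, ha, rfl⟩
      exact (he a).2 ha
  refine ⟨O, j, j', Ψ, h1, h2, h3, h4, h5, h6, fun x hx a => ⟨(h7 x hx a).1, fun y => ?_⟩, ?_, ?_⟩
  · rw [(h7 x hx a).2 y]
    exact congrArg (Ψ x) (hA _ y a)
  · intro k
    obtain ⟨p, hp⟩ := h8 k
    exact ⟨p, fun x hx => key _ k (Ψ x) (hp x hx)⟩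
  · intro p
    obtain ⟨k, hk⟩ := h9 p
    exact ⟨k, fun x hx => key _ k (Ψ x) (hk x hx)⟩

end Transfer2

/-- The symplectic form, a tame almost complex structure and the orientation. -/
theorem exists_symplectic : ∃ σ : Form 2,
    (∀ (i j : ℕ) (x y : Fin 6 → ℝ), σ x ![X i x, X j x] = σ y ![X i y, X j y]) ∧
    0 < (integral σ σ σ).re ∧ IsSymplectic σ ∧ ∃ J, IsTame σ J := by
  obtain ⟨σ, k1, k2, k3, k4⟩ := Pool.Agent.H95.GWNil.omega_nondeg
  obtain ⟨J', hJ'⟩ := Pool.Agent.H87.GWNil.exists_tame k2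
  have hJ₀ : IsTame σ fun x v => J' x v := (isTame_iff σ _).2 ⟨J', hJ', fun _ _ => rfl⟩
  have h1 : -σ ∈ Pool.Agent.H64.GW.Nil.Z2 := Submodule.neg_mem _ k1
  have hc : ∀ i j x, (-σ) x ![X i x, X j x] = -Pool.Agent.H95.GWNil.cω i j := fun i j x =>
    congrArg (fun t : ℂ => -t) (k2 i j x)
  have hneg : ∀ x v, (-σ : Form 2) x v = -(σ x v) := fun x v => rfl
  refine ⟨-σ, fun i j x y => (hc i j x).trans (hc i j y).symm, ?_,
    ⟨(isClosedForm_iff _).2 h1, fun x v => ?_, fun x v hv => ?_⟩, fun x v => -(J' x v), ?_⟩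
  · have h2 : Pool.Agent.H64.GW.Nil.integral (-σ) (-σ) (-σ) = 6 := by
      rw [Pool.Agent.H64.GW.Nil.integral_const h1 h1 h1 hc hc hc]
      simp [Pool.Agent.H95.GWNil.cω]
      norm_num
    have h3 : integral (-σ) (-σ) (-σ) = 6 := (integral_eq _ _ _).trans h2
    rw [h3]
    norm_num
  · rw [hneg, Complex.neg_im, k3, neg_zero]
  · refine k4 x v fun w => ?_
    have h3 := hv w
    rw [hneg] at h3
    exact neg_eq_zero.1 h3
  · refine ⟨fun x => ?_, fun v => ?_, fun x v => ?_, fun γ hγ x v => ?_, fun x v hv => ?_⟩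
    · have h3 := hJ₀.linear x
      exact ⟨fun a b => by rw [h3.map_add, neg_add], fun c a => by rw [h3.map_smul, smul_neg]⟩
    · exact (hJ₀.smooth v).neg
    · have h3 := hJ₀.sq x v
      rw [map_neg, neg_neg]
      exact h3
    · have h3 := hJ₀.invariant γ hγ x v
      rw [map_neg, h3]
    · have h3 := hJ₀.tame x v hv
      have h4 : σ x ![v, -(J' x v)] = -(σ x ![v, J' x v]) := by
        have h5 := (σ x).map_update_neg ![v, J' x v] 1 (J' x v)
        have h6 : ∀ w : Fin 6 → ℝ, Function.update ![v, J' x v] 1 w = ![v, w] := fun w => by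
          funext i
          fin_cases i <;> rfl
        rw [h6, h6] at h5
        exact h5
      rw [hneg, h4, neg_neg]
      exact h3

open Pool.Agent.H64.GW in
/-- **The Gromov-Witten variation of the nilmanifold `V` is not algebro-geometric.** -/
theorem result :
    -- `V = Γ \ ℝ⁶` is a closed manifold with universal covering `ℝ⁶`
    (CompactSpace V ∧ T2Space V ∧ ConnectedSpace V ∧ IsCoveringMap proj ∧
      ∀ x, ∃! γ, γ ∈ Lat ∧ ∀ i, 0 ≤ mul γ x i ∧ mul γ x i < 1) ∧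
    -- the left invariant vector fields form a frame of the tangent bundle of `V`
    (∀ γ ∈ Lat, ∀ (i : ℕ) (x : Fin 6 → ℝ), fderiv ℝ (mul γ) x (X i x) = X i (mul γ x)) ∧
    (∀ x : Fin 6 → ℝ, LinearIndependent ℝ fun i : Fin 6 => X i x) ∧
    -- `V` carries a symplectic form `σ`, constant in this frame (hence `c₁ = 0`),
    ∃ σ : Form 2, IsSymplectic σ ∧
      (∀ (i j : ℕ) (x y : Fin 6 → ℝ), σ x ![X i x, X j x] = σ y ![X i y, X j y]) ∧
    -- (the integral over `V` is for the orientation of `V` given by `σ ³`)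
    0 < (integral σ σ σ).re ∧
    -- and has no nonconstant pseudo-holomorphic spheres
    (∃ J, IsTame σ J) ∧ (∀ J u v, IsTame σ J → IsSphere J u v → ∀ z, u z = u 0) ∧
    -- the second Betti number of `V` is three
    (∃ q : Form 2 → Fin 3 → ℂ, IsH2 q) ∧
    -- let `T` be the second cohomology of `V`, and `C` the cubic form on it
    ∀ (T : Type) [NormedAddCommGroup T] [NormedSpace ℂ T] (q : Form 2 → T), IsH2 q →
    (∃! C : T →ₗ[ℂ] T →ₗ[ℂ] Module.Dual ℂ T, IsCubic q C) ∧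
    ∀ C : T →ₗ[ℂ] T →ₗ[ℂ] Module.Dual ℂ T, IsCubic q C →
    -- (numbers with the two properties of Gromov-Witten numbers that are used exist)
    (∀ (H₂ : Type) [AddCommGroup H₂],
      ∃ I : ℕ → H₂ → ℂ × T × Module.Dual ℂ T × ℂ → ℂ, IsGW σ C I) ∧
    -- let `I` be the genus zero Gromov-Witten numbers of `V`
    ∀ (H₂ : Type) [AddCommGroup H₂] (area : H₂ →+ ℝ)
      (I : ℕ → H₂ → ℂ × T × Module.Dual ℂ T × ℂ → ℂ), IsGW σ C I →
    -- the prepotential converges and defines a connection form `A`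
    (∀ γ, Summable fun p : H₂ × ℕ => term area I γ p.1 p.2) ∧
    (∃! A, IsConnectionForm C (fun γ => ∑' β : H₂, ∑' n : ℕ, term area I γ β n) A) ∧
    ∀ A, IsConnectionForm C (fun γ => ∑' β : H₂, ∑' n : ℕ, term area I γ β n) A →
    -- let `F'` be a subquotient of a polarized variation `F` over an algebraic base `(S, Γ)`
    ∀ (n : ℕ) (S : Type) [TopologicalSpace S] [ChartedSpace (Fin n → ℂ) S]
      (Γ : Type) [Group Γ] [MulAction Γ S], IsAlgebraicBase n S Γ →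
    ∀ (E : Type) [NormedAddCommGroup E] [NormedSpace ℂ E] [FiniteDimensional ℂ E]
      (F : ℤ → S → Submodule ℂ E) (ρ : Γ →* (E ≃ₗ[ℂ] E)) (h : E →L⋆[ℂ] E →L[ℂ] ℂ),
      IsPolarizedVariation (Fin n → ℂ) F ρ h →
    ∀ (E' : Type) [NormedAddCommGroup E'] [NormedSpace ℂ E'] (F' : ℤ → S → Submodule ℂ E'),
      IsSubquotient F ρ F' →
    -- then the Gromov-Witten variation is not locally equivalent to `F'`
    ∀ (x₀ : T) (s₀ : S), ¬ LocallyEquivalent A x₀ (Fin n → ℂ) F' s₀ := by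
  obtain ⟨σ, k2, hint, hsymp, J₀, hJ₀⟩ := exists_symplectic
  have hσ : IsClosedForm σ := hsymp.closed
  refine ⟨⟨compact_V, t2_V, connected_V, covering_V, Pool.Agent.H61.GWNil.existsUnique_lat⟩,
    ?_, ?_, σ, hsymp, ?_, hint, ⟨_, hJ₀⟩, ?_, ⟨clsFun, isH2_clsFun⟩, ?_⟩
  · intro γ _ i x
    have h1 := Pool.Agent.H95.GWNil.fderiv_mul γ x
    have h2 := Pool.Agent.H95.GWNil.dmul_X γ x i
    have h3 : fderiv ℝ (mul γ) x = Pool.Agent.H95.GWNil.dmul γ := h1
    rw [h3]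
    exact h2
  · intro x
    have h := (Pool.Agent.H95.GWNil.frame x).linearIndependent
    have h2 : (Pool.Agent.H95.GWNil.frame x : Fin 6 → (Fin 6 → ℝ)) = fun i : Fin 6 => X i x :=
      funext fun i => Pool.Agent.H95.GWNil.frame_apply x i
    rwa [h2] at h
  · exact k2
  · intro J u v hJ hs
    exact sphere_constant hσ hJ hs
  · intro T _ _ q hq
    obtain ⟨h1, h2, h3, r, hr0, hr, -⟩ := Nil.cubic (isH2_clsMap hq)
      (C := (Nil.existsUnique_cubic (isH2_clsMap hq)).choose)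
      (Nil.existsUnique_cubic (isH2_clsMap hq)).choose_spec.1
    refine ⟨?_, ?_⟩
    · obtain ⟨C, hC, hC'⟩ := Nil.existsUnique_cubic (isH2_clsMap hq)
      exact ⟨C, (isCubic_iff hq C).2 hC, fun D hD => hC' D ((isCubic_iff hq D).1 hD)⟩
    intro C hC
    refine ⟨exists_gw σ C, ?_⟩
    intro H₂ _ area I hI
    obtain ⟨h1, h2, h3, r, hr0, hr, -⟩ := Nil.cubic (isH2_clsMap hq) ((isCubic_iff hq C).1 hC)
    set N : GWNumbers C H₂ := numbers hσ hJ₀ hI with hN
    have hpre : (fun γ => ∑' β : H₂, ∑' n : ℕ, term area I γ β n) = prepotential area N.I := rfl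
    refine ⟨?_, ?_, ?_⟩
    · intro γ
      apply summable_of_ne_finset_zero (s := {(0, 3)})
      rintro ⟨β, n⟩ hp
      simp only [Finset.mem_singleton, Prod.mk.injEq, not_and] at hp
      unfold term
      split_ifs with hn
      · by_cases hβ : β = 0
        · subst hβ
          rw [hI.zero_of_three_lt n (by have := hp rfl; omega), mul_zero]
        · have : I n β γ = 0 := N.nonzero n hn β hβ γ
          rw [this, mul_zero]
      · rfl
    · rw [hpre, prepotential_eq N area (map_zero area)]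
      refine ⟨fun _ x y => cupProduct C x y, fun γ x y z => ?_, fun A hA => ?_⟩
      · exact (thirdDeriv_classical h1 h2 γ x y z).symm
      · funext γ x y
        apply eq_of_pairing (C := C)
        intro z
        have h5 := hA γ x y z
        have h6 := thirdDeriv_classical h1 h2 γ x y z
        exact h5.trans h6
    · intro A hA n S _ _ Γ _ _ hB E _ _ _ F ρ h hF E' _ _ F' hF' x₀ s₀ hL
      have hm := hB.manifold
      have hc := hB.connected
      obtain ⟨Y, hY⟩ := exists_subquotient hF hF'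
      rw [← hY] at hL
      refine Pool.Agent.H25.GW.not_locallyEquivalent_sub h1 h3 hr0 hr (isLiouville_of hB) _ Y x₀ s₀
        (locallyEquivalent_of (fun γ y a => ?_) hL)
      exact connectionForm_eq h1 h2 N area (map_zero area) (A := A) hA γ y a

end Pool.Agent.Results.MP_a4dd1d_ag.Nilmanifold
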